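import Pool.Agent.Lib.MP_95ac01_nt.Iface
import Pool.Agent.Lib.MP_95ac01_nt.H81.Fibre

/-!
# MP_95ac01_nt: module REALEXC
-/

set_option autoImplicit false

namespace H9

open Cub Finset Filter

noncomputable section

theorem abs_prod_le_one {ι : Type*} (s : Finset ι) (f : ι → ℝ) (hf : ∀ i ∈ s, |f i| ≤ 1) :
    |∏ i ∈ s, f i| ≤ 1 := by
  rw [Finset.abs_prod]
  exact Finset.prod_le_one (fun i _ => abs_nonneg _) hf

theorem abs_prod_sub_prod {ι : Type*} [DecidableEq ι] (s : Finset ι) (f g : ι → ℝ)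
    (hf : ∀ i ∈ s, |f i| ≤ 1) (hg : ∀ i ∈ s, |g i| ≤ 1) :
    |∏ i ∈ s, f i - ∏ i ∈ s, g i| ≤ ∑ i ∈ s, |f i - g i| := by
  induction s using Finset.induction_on with
  | empty => simp
  | insert a s ha ih =>
    rw [Finset.prod_insert ha, Finset.prod_insert ha, Finset.sum_insert ha]
    have h1 := ih (fun i hi => hf i (Finset.mem_insert_of_mem hi))
      (fun i hi => hg i (Finset.mem_insert_of_mem hi))
    have h2 : |∏ i ∈ s, g i| ≤ 1 := abs_prod_le_one s g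
      (fun i hi => hg i (Finset.mem_insert_of_mem hi))
    have h3 : |f a| ≤ 1 := hf a (Finset.mem_insert_self _ _)
    have e : f a * ∏ i ∈ s, f i - g a * ∏ i ∈ s, g i =
        f a * (∏ i ∈ s, f i - ∏ i ∈ s, g i) + (f a - g a) * ∏ i ∈ s, g i := by ring
    rw [e]
    refine (abs_add_le _ _).trans ?_
    rw [abs_mul, abs_mul]
    have h4 : |f a| * |∏ i ∈ s, f i - ∏ i ∈ s, g i| ≤ 1 * |∏ i ∈ s, f i - ∏ i ∈ s, g i| :=
      mul_le_mul_of_nonneg_right h3 (abs_nonneg _)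
    have h5 : |f a - g a| * |∏ i ∈ s, g i| ≤ |f a - g a| * 1 :=
      mul_le_mul_of_nonneg_left h2 (abs_nonneg _)
    linarith

theorem abs_pow_sub_pow (x y : ℝ) (hx : |x| ≤ 1) (hy : |y| ≤ 1) (n : ℕ) :
    |x ^ n - y ^ n| ≤ n * |x - y| := by
  have h := abs_prod_sub_prod (Finset.range n) (fun _ => x) (fun _ => y) (fun _ _ => hx)
    (fun _ _ => hy)
  simpa using h

theorem abs_pow_le_one' (x : ℝ) (hx : |x| ≤ 1) (n : ℕ) : |x ^ n| ≤ 1 := by
  rw [abs_pow]; exact pow_le_one₀ (abs_nonneg _) hx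

theorem mcoord_le (m : Mon) (i : Fin 4) : (((m.1 i : Fin 4) : ℕ) : ℝ) ≤ 3 := by
  have : ((m.1 i : Fin 4) : ℕ) ≤ 3 := by omega
  exact_mod_cast this

theorem abs_mv_sub (m : Mon) (x y : Fin 4 → ℝ) (δ : ℝ) (hx : ∀ i, |x i| ≤ 1)
    (hy : ∀ i, |y i| ≤ 1) (h : ∀ i, |x i - y i| ≤ δ) : |mv m x - mv m y| ≤ 12 * δ := by
  unfold mv
  refine (abs_prod_sub_prod _ _ _ (fun i _ => abs_pow_le_one' _ (hx i) _)
    (fun i _ => abs_pow_le_one' _ (hy i) _)).trans ?_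
  have key : ∀ i ∈ (univ : Finset (Fin 4)), |x i ^ ((m.1 i : Fin 4) : ℕ) -
      y i ^ ((m.1 i : Fin 4) : ℕ)| ≤ 3 * δ := by
    intro i _
    refine (abs_pow_sub_pow _ _ (hx i) (hy i) _).trans ?_
    exact mul_le_mul (mcoord_le m i) (h i) (abs_nonneg _) (by norm_num)
  refine (Finset.sum_le_sum key).trans ?_
  simp; linarith

theorem abs_dmv_sub (m : Mon) (j : Fin 4) (x y : Fin 4 → ℝ) (δ : ℝ) (hδ : 0 ≤ δ)
    (hx : ∀ i, |x i| ≤ 1)
    (hy : ∀ i, |y i| ≤ 1) (h : ∀ i, |x i - y i| ≤ δ) : |dmv m j x - dmv m j y| ≤ 45 * δ := by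
  unfold dmv
  set e : ℕ := ((m.1 j : Fin 4) : ℕ) with he
  set P := ∏ i ∈ univ.erase j, x i ^ ((m.1 i : Fin 4) : ℕ) with hP
  set Q := ∏ i ∈ univ.erase j, y i ^ ((m.1 i : Fin 4) : ℕ) with hQ
  have he3 : (e : ℝ) ≤ 3 := mcoord_le m j
  have hQ1 : |Q| ≤ 1 := abs_prod_le_one _ _ (fun i _ => abs_pow_le_one' _ (hy i) _)
  have hPQ : |P - Q| ≤ 12 * δ := by
    refine (abs_prod_sub_prod _ _ _ (fun i _ => abs_pow_le_one' _ (hx i) _)
      (fun i _ => abs_pow_le_one' _ (hy i) _)).trans ?_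
    have key : ∀ i ∈ univ.erase j, |x i ^ ((m.1 i : Fin 4) : ℕ) -
        y i ^ ((m.1 i : Fin 4) : ℕ)| ≤ 3 * δ := by
      intro i _
      refine (abs_pow_sub_pow _ _ (hx i) (hy i) _).trans ?_
      exact mul_le_mul (mcoord_le m i) (h i) (abs_nonneg _) (by norm_num)
    refine (Finset.sum_le_sum key).trans ?_
    rw [Finset.sum_const, Finset.card_erase_of_mem (Finset.mem_univ j)]
    simp; linarith
  have h1 : |x j ^ (e - 1) - y j ^ (e - 1)| ≤ 3 * δ := by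
    refine (abs_pow_sub_pow _ _ (hx j) (hy j) _).trans ?_
    have : ((e - 1 : ℕ) : ℝ) ≤ 3 := by
      refine le_trans ?_ he3
      exact_mod_cast Nat.sub_le _ _
    exact mul_le_mul this (h j) (abs_nonneg _) (by norm_num)
  have h2 : |x j ^ (e - 1)| ≤ 1 := abs_pow_le_one' _ (hx j) _
  have eq1 : (e : ℝ) * x j ^ (e - 1) * P - (e : ℝ) * y j ^ (e - 1) * Q =
      e * (x j ^ (e - 1) * (P - Q) + (x j ^ (e - 1) - y j ^ (e - 1)) * Q) := by ring
  rw [eq1, abs_mul, abs_of_nonneg (Nat.cast_nonneg e)]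
  have h3 : |x j ^ (e - 1) * (P - Q) + (x j ^ (e - 1) - y j ^ (e - 1)) * Q| ≤ 15 * δ := by
    refine (abs_add_le _ _).trans ?_
    rw [abs_mul, abs_mul]
    have a1 : |x j ^ (e - 1)| * |P - Q| ≤ 1 * (12 * δ) :=
      mul_le_mul h2 hPQ (abs_nonneg _) (by norm_num)
    have a2 : |x j ^ (e - 1) - y j ^ (e - 1)| * |Q| ≤ (3 * δ) * 1 :=
      mul_le_mul h1 hQ1 (abs_nonneg _) (by positivity)
    linarith
  calc (e : ℝ) * |x j ^ (e - 1) * (P - Q) + (x j ^ (e - 1) - y j ^ (e - 1)) * Q|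
      ≤ 3 * (15 * δ) := mul_le_mul he3 h3 (abs_nonneg _) (by norm_num)
    _ = 45 * δ := by ring

theorem abs_comb_sub {H : ℕ} {c : Mon → ℤ} (hc : c ∈ Cub.box H) (u v : Mon → ℝ) (ε : ℝ)
    (h : ∀ m, |u m - v m| ≤ ε) :
    |∑ m, cc ℝ c m * u m - ∑ m, cc ℝ c m * v m| ≤ 20 * (H * ε) := by
  rw [← Finset.sum_sub_distrib]
  refine (Finset.abs_sum_le_sum_abs _ _).trans ?_
  have key : ∀ m ∈ (univ : Finset Mon), |cc ℝ c m * u m - cc ℝ c m * v m| ≤ H * ε := by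
    intro m _
    rw [← mul_sub, abs_mul]
    have : |cc ℝ c m| ≤ (H : ℝ) := by
      have := (mem_box.1 hc) m
      unfold cc
      exact_mod_cast this
    exact mul_le_mul this (h m) (abs_nonneg _) (Nat.cast_nonneg H)
  refine (Finset.sum_le_sum key).trans ?_
  rw [Finset.sum_const, Finset.card_univ, card_mon]
  simp

/-- Number of integers in an interval. -/
theorem card_near (H : ℕ) (L t : ℝ) (hL : 0 ≤ L) :
    open Classical in
    ((Icc (-(H : ℤ)) H).filter fun n : ℤ => (n : ℝ) + t ∈ {s : ℝ | |s| ≤ L}).card ≤ ⌊2 * L⌋₊ + 1 := by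
  classical
  have hsub : ((Icc (-(H : ℤ)) H).filter fun n : ℤ => (n : ℝ) + t ∈ {s : ℝ | |s| ≤ L}) ⊆
      (Icc (⌈-L - t⌉ : ℤ) (⌊L - t⌋ : ℤ) : Finset ℤ) := by
    intro n hn
    rw [Finset.mem_filter] at hn
    have h := abs_le.1 (show |(n : ℝ) + t| ≤ L from hn.2)
    rw [Finset.mem_Icc]
    constructor
    · rw [Int.ceil_le]; linarith [h.1]
    · rw [Int.le_floor]; linarith [h.2]
  refine (Finset.card_le_card hsub).trans ?_
  rw [Int.card_Icc]
  have h1 : (⌊L - t⌋ : ℝ) ≤ L - t := Int.floor_le _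
  have h2 : -L - t ≤ (⌈-L - t⌉ : ℝ) := Int.le_ceil _
  have h3 : ((⌊L - t⌋ - ⌈-L - t⌉ : ℤ) : ℝ) ≤ 2 * L := by push_cast; linarith
  have h4 : ⌊L - t⌋ - ⌈-L - t⌉ ≤ ⌊2 * L⌋ := Int.le_floor.2 h3
  have h5 : ⌊2 * L⌋ = ((⌊2 * L⌋₊ : ℕ) : ℤ) := (Int.natCast_floor_eq_floor (by linarith)).symm
  omega

theorem final_ineq (κ X N n M : ℝ) (hκ : 0 < κ) (hX : 0 < X) (hN0 : 0 ≤ N) (hn0 : 0 < n)
    (hN : N ≤ M * (κ * X)) (hn : 2 * n + 1 ≤ 6 / κ) :
    4 * ((2 * n + 1) ^ 3 * (X ^ 16 * N ^ 4)) ≤ 864 * M ^ 4 * κ * X ^ 20 := by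
  have h1 : (2 * n + 1) ^ 3 ≤ (6 / κ) ^ 3 := pow_le_pow_left₀ (by positivity) hn 3
  have h2 : N ^ 4 ≤ (M * (κ * X)) ^ 4 := pow_le_pow_left₀ hN0 hN 4
  have h3 : X ^ 16 * N ^ 4 ≤ X ^ 16 * (M * (κ * X)) ^ 4 :=
    mul_le_mul_of_nonneg_left h2 (by positivity)
  have h4 : (2 * n + 1) ^ 3 * (X ^ 16 * N ^ 4) ≤ (6 / κ) ^ 3 * (X ^ 16 * (M * (κ * X)) ^ 4) :=
    mul_le_mul h1 h3 (by positivity) (by positivity)
  have h5 : (6 / κ) ^ 3 * (X ^ 16 * (M * (κ * X)) ^ 4) = 216 * M ^ 4 * κ * X ^ 20 := by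
    field_simp
    ring
  rw [h5] at h4
  linarith

open Classical in
theorem realexc (h1 : RealZeroStatement) (h2 : Cub.H81.FibreStatement') : RealExcStatement := by
  refine ⟨864 * 4001 ^ 4, by positivity, ?_⟩
  intro κ hκ hκ1
  -- eventually κ (2H+1) ≥ 1
  filter_upwards [eventually_ge_atTop (⌈1 / κ⌉₊)] with H hH
  have hκH : 1 ≤ κ * (2 * (H : ℝ) + 1) := by
    have : (1 / κ : ℝ) ≤ H := (Nat.le_ceil _).trans (by exact_mod_cast hH)
    have h3 : 1 ≤ κ * (H : ℝ) := by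
      rw [div_le_iff₀ hκ] at this; linarith
    nlinarith
  set n : ℕ := ⌈1 / κ⌉₊ with hn
  have hn1 : 1 ≤ n := Nat.one_le_ceil_iff.2 (by positivity)
  have hn0 : (0 : ℝ) < n := by exact_mod_cast hn1
  have hnκ : 1 / κ ≤ (n : ℝ) := Nat.le_ceil _
  have hnκ2 : (n : ℝ) ≤ 2 / κ := by
    have := Nat.ceil_lt_add_one (show (0 : ℝ) ≤ 1 / κ by positivity)
    have h3 : (1 : ℝ) ≤ 1 / κ := by rw [le_div_iff₀ hκ]; linarith
    have h4 : (2 : ℝ) / κ = 1 / κ + 1 / κ := by ring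
    rw [h4]; linarith
  have hinv : 1 / (n : ℝ) ≤ κ := by
    rw [div_le_iff₀ hn0]
    rw [div_le_iff₀ hκ] at hnκ
    linarith
  obtain ⟨L, hL⟩ : ∃ L : ℝ, L = 1000 * (κ * H) := ⟨_, rfl⟩
  have hL0 : 0 ≤ L := by rw [hL]; positivity
  obtain ⟨N, hN⟩ : ∃ N : ℕ, N = ⌊2 * L⌋₊ + 1 := ⟨_, rfl⟩
  set D : Set ℝ := {s : ℝ | |s| ≤ L} with hD
  set pts : Fin 4 → Finset (Fin 4 → ℤ) := fun i =>
    Fintype.piFinset fun k => if k = i then {(n : ℤ)} else Icc (-(n : ℤ)) n with hpts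
  have hcard : ∀ i, (pts i).card = (2 * n + 1) ^ 3 := by
    intro i
    simp only [hpts, Fintype.card_piFinset]
    have e : ∀ k : Fin 4, (if k = i then ({(n : ℤ)} : Finset ℤ) else Icc (-(n : ℤ)) n).card =
        if k = i then 1 else (2 * n + 1) := by
      intro k
      split_ifs
      · simp
      · rw [Int.card_Icc]; omega
    simp only [e]
    fin_cases i <;> simp [Fin.prod_univ_four] <;> ring
  set pt : (Fin 4 → ℤ) → Fin 4 → ℝ := fun b k => (b k : ℝ) / n with hpt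
  set F : Fin 4 → (Fin 4 → ℤ) → Finset (Mon → ℤ) := fun i b =>
    (Cub.box H).filter fun c => ev (cc ℝ c) (pt b) ∈ D ∧ ∀ j, j ≠ i → pd (cc ℝ c) j (pt b) ∈ D with hF
  have hFcard : ∀ i, ∀ b ∈ pts i, (F i b).card ≤ (2 * H + 1) ^ 16 * N ^ 4 := by
    intro i b hb
    refine h2 ℝ (pt b) i D N H ?_ ?_
    · have : b i = n := by
        have := (Fintype.mem_piFinset.1 hb) i
        simpa using this
      simp only [hpt, this]
      push_cast
      exact div_self hn0.ne'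
    · intro t
      rw [hN]
      exact card_near H L t hL0
  have hsub : ((Cub.box H).filter fun c => ¬ RC κ H c) ⊆
      univ.biUnion fun i => (pts i).biUnion fun b => F i b := by
    intro c hc
    rw [Finset.mem_filter] at hc
    obtain ⟨hcb, hRC⟩ := hc
    -- a zero with a coordinate equal to 1
    obtain ⟨ξ, hξ1, ⟨i, hi⟩, hξ0⟩ : ∃ ξ : Fin 4 → ℝ, (∀ i, |ξ i| ≤ 1) ∧ (∃ i, ξ i = 1) ∧
        ev (cc ℝ c) ξ = 0 := by
      obtain ⟨ξ, a1, ⟨i, a2⟩, a3⟩ := h1 (cc ℝ c)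
      rcases eq_or_eq_neg_of_abs_eq a2 with h | h
      · exact ⟨ξ, a1, ⟨i, h⟩, a3⟩
      · refine ⟨-ξ, fun k => by simpa using a1 k, ⟨i, by simp [h]⟩, ?_⟩
        rw [ev_neg_x, a3, neg_zero]
    have hpd : ∀ j, |pd (cc ℝ c) j ξ| < κ * H := by
      intro j
      by_contra hj
      exact hRC ⟨ξ, hξ1, ⟨i, by rw [hi]; simp⟩, hξ0, j, not_lt.1 hj⟩
    set b : Fin 4 → ℤ := fun k => round ((n : ℝ) * ξ k) with hb
    have hb1 : ∀ k, |ξ k - pt b k| ≤ κ := by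
      intro k
      have h3 := abs_sub_round ((n : ℝ) * ξ k)
      have e : ξ k - pt b k = ((n : ℝ) * ξ k - (b k : ℝ)) / n := by
        simp only [hpt]; field_simp
      rw [e, abs_div, abs_of_pos hn0, div_le_iff₀ hn0]
      have h4 : 1 ≤ κ * n := by rw [div_le_iff₀ hn0] at hinv; exact hinv
      have h5 : |(n : ℝ) * ξ k - (b k : ℝ)| ≤ 1 / 2 := h3
      linarith
    have hbn : ∀ k, |b k| ≤ (n : ℤ) := by
      intro k
      have h3 : |(b k : ℝ)| ≤ n + 1 / 2 := by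
        have h4 := abs_sub_round ((n : ℝ) * ξ k)
        have h5 : |(n : ℝ) * ξ k| ≤ n := by
          rw [abs_mul, abs_of_pos hn0]
          have := hξ1 k
          nlinarith
        have h6 : (b k : ℝ) = (n : ℝ) * ξ k - ((n : ℝ) * ξ k - (b k : ℝ)) := by ring
        rw [h6]
        refine (abs_sub _ _).trans ?_
        have h7 : |(n : ℝ) * ξ k - (b k : ℝ)| ≤ 1 / 2 := h4
        linarith
      have h8 : ((|b k| : ℤ) : ℝ) < ((n + 1 : ℤ) : ℝ) := by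
        push_cast; linarith
      have h9 : |b k| < (n : ℤ) + 1 := by exact_mod_cast h8
      omega
    have hpt1 : ∀ k, |pt b k| ≤ 1 := by
      intro k
      simp only [hpt]
      rw [abs_div, abs_of_pos hn0, div_le_one hn0]
      have := hbn k
      exact_mod_cast this
    have hbi : b i = n := by
      simp only [hb, hi, mul_one]
      simp
    rw [Finset.mem_biUnion]
    refine ⟨i, Finset.mem_univ _, ?_⟩
    rw [Finset.mem_biUnion]
    refine ⟨b, ?_, ?_⟩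
    · simp only [hpts]
      rw [Fintype.mem_piFinset]
      intro k
      by_cases hk : k = i
      · subst hk; simp [hbi]
      · rw [if_neg hk, Finset.mem_Icc]
        exact abs_le.1 (hbn k)
    · simp only [hF]
      rw [Finset.mem_filter]
      refine ⟨hcb, ?_, ?_⟩
      · show |ev (cc ℝ c) (pt b)| ≤ L
        have h3 := abs_comb_sub hcb (fun m => mv m ξ) (fun m => mv m (pt b)) (12 * κ)
          (fun m => abs_mv_sub m ξ (pt b) κ hξ1 hpt1 hb1)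
        have h4 : ∑ m, cc ℝ c m * mv m ξ = 0 := hξ0
        rw [h4, zero_sub, abs_neg] at h3
        refine (show |ev (cc ℝ c) (pt b)| ≤ _ from h3).trans ?_
        have h5 : 0 ≤ κ * (H : ℝ) := by positivity
        rw [hL]
        nlinarith
      · intro j _
        show |pd (cc ℝ c) j (pt b)| ≤ L
        have h3 := abs_comb_sub hcb (fun m => dmv m j ξ) (fun m => dmv m j (pt b)) (45 * κ)
          (fun m => abs_dmv_sub m j ξ (pt b) κ hκ.le hξ1 hpt1 hb1)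
        have h4 : |pd (cc ℝ c) j ξ - pd (cc ℝ c) j (pt b)| ≤ 20 * (H * (45 * κ)) := h3
        have h5 : 0 ≤ κ * (H : ℝ) := by positivity
        have h6 := hpd j
        have h7 : |pd (cc ℝ c) j (pt b)| ≤ |pd (cc ℝ c) j ξ| +
            |pd (cc ℝ c) j ξ - pd (cc ℝ c) j (pt b)| := by
          have e : pd (cc ℝ c) j (pt b) = pd (cc ℝ c) j ξ -
              (pd (cc ℝ c) j ξ - pd (cc ℝ c) j (pt b)) := by ring
          calc |pd (cc ℝ c) j (pt b)| = |pd (cc ℝ c) j ξ -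
              (pd (cc ℝ c) j ξ - pd (cc ℝ c) j (pt b))| := by rw [← e]
            _ ≤ _ := abs_sub _ _
        rw [hL]
        nlinarith
  have hbound : ((Cub.box H).filter fun c => ¬ RC κ H c).card ≤
      4 * ((2 * n + 1) ^ 3 * ((2 * H + 1) ^ 16 * N ^ 4)) := by
    refine (Finset.card_le_card hsub).trans ?_
    refine Finset.card_biUnion_le.trans ?_
    have key : ∀ i ∈ (univ : Finset (Fin 4)), ((pts i).biUnion fun b => F i b).card ≤
        (2 * n + 1) ^ 3 * ((2 * H + 1) ^ 16 * N ^ 4) := by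
      intro i _
      refine Finset.card_biUnion_le.trans ?_
      refine (Finset.sum_le_sum (hFcard i)).trans ?_
      rw [Finset.sum_const, hcard, smul_eq_mul]
    refine (Finset.sum_le_sum key).trans ?_
    simp
  have hbR : (((Cub.box H).filter fun c => ¬ RC κ H c).card : ℝ) ≤
      4 * ((2 * (n : ℝ) + 1) ^ 3 * ((2 * (H : ℝ) + 1) ^ 16 * (N : ℝ) ^ 4)) := by
    exact_mod_cast hbound
  refine hbR.trans ?_
  have hNle : (N : ℝ) ≤ 4001 * (κ * (2 * (H : ℝ) + 1)) := by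
    have h3 : ((⌊2 * L⌋₊ : ℕ) : ℝ) ≤ 2 * L := Nat.floor_le (by linarith)
    rw [hN]
    push_cast
    have h4 : 2 * L ≤ 2000 * (κ * (2 * (H : ℝ) + 1)) := by
      rw [hL]
      have : 0 ≤ κ * (H : ℝ) := by positivity
      nlinarith
    linarith
  have hnle : 2 * (n : ℝ) + 1 ≤ 6 / κ := by
    have h3 : (1 : ℝ) ≤ 1 / κ := by rw [le_div_iff₀ hκ]; linarith
    have e1 : (2 : ℝ) / κ = 2 * (1 / κ) := by ring
    have e2 : (6 : ℝ) / κ = 6 * (1 / κ) := by ring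
    rw [e1] at hnκ2
    rw [e2]
    linarith
  have hX : (0 : ℝ) < 2 * (H : ℝ) + 1 := by positivity
  exact final_ineq κ (2 * (H : ℝ) + 1) N n 4001 hκ hX (Nat.cast_nonneg _) hn0 hNle hnle

end

end H9
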